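import Pool.Agent.H104.MZ.Stm

/-! Project MZ (helper104), jobs STR, BIN, NEAR. -/

set_option autoImplicit false

open Polynomial Finset

namespace Pool.Agent.Q151.MZ

open Pool.Agent.H104.MZ

theorem t_STR : S_STR := by
  intro N R Y B hB hN
  by_contra hcon
  push Not at hcon
  have hsub : range (R + 1) ⊆ B.image (fun j => j / Y) := by
    intro u hu
    rw [mem_range] at hu
    have h1 : u * Y + Y ≤ N := by
      calc u * Y + Y = (u + 1) * Y := by ring
        _ ≤ (R + 1) * Y := Nat.mul_le_mul_right _ (by omega)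
        _ ≤ N := hN
    obtain ⟨j, h2, h3, h4⟩ := hcon (u * Y) h1
    rw [mem_image]
    refine ⟨j, h4, ?_⟩
    exact Nat.div_eq_of_lt_le (by linarith) (by rw [add_mul, one_mul]; exact h3)
  have h1 := card_le_card hsub
  rw [card_range] at h1
  have h2 := card_image_le (s := B) (f := fun j => j / Y)
  omega

theorem t_BIN : S_BIN := by
  intro m c
  refine ⟨∑ k : Fin m, C (c k / ((k : ℕ).factorial : ℝ)) * descPochhammer ℝ (k : ℕ), ?_, ?_⟩
  · rw [← mem_degreeLT]
    refine Submodule.sum_mem _ fun k _ => ?_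
    rw [mem_degreeLT]
    refine lt_of_le_of_lt (degree_le_of_natDegree_le (natDegree_C_mul_le _ _)) ?_
    rw [descPochhammer_natDegree]
    exact_mod_cast k.2
  · intro j
    rw [eval_finsetSum]
    refine Finset.sum_congr rfl fun k _ => ?_
    rw [eval_mul, eval_C, descPochhammer_eval_eq_descFactorial,
      Nat.descFactorial_eq_factorial_mul_choose]
    have : (((k : ℕ).factorial : ℕ) : ℝ) ≠ 0 := by exact_mod_cast Nat.factorial_ne_zero _
    push_cast
    field_simp

theorem t_NEAR : S_NEAR := by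
  intro N m Λ t hN hm hΛ ht
  have hN' : (1 : ℝ) ≤ N := by exact_mod_cast hN
  have hm' : (1 : ℝ) ≤ m := by exact_mod_cast hm
  have hΛ' : (1 : ℝ) ≤ Λ := by exact_mod_cast hΛ
  have hN0 : (0 : ℝ) < N := by linarith
  have hm0 : (0 : ℝ) < m := by linarith
  have hΛ0 : (0 : ℝ) < Λ := by linarith
  have key : ∀ j ∈ range N, 1 - 1 / (2 * (N : ℝ)) ≤
      Real.cos (Real.pi * (2 * (∑ k : Fin m, (t k : ℝ) * ((j.choose k : ℕ) : ℝ)) / Λ)) := by
    intro j hj
    rw [mem_range] at hj
    set s : ℝ := ∑ k : Fin m, (t k : ℝ) * ((j.choose k : ℕ) : ℝ) with hs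
    have hs0 : 0 ≤ s := Finset.sum_nonneg fun k _ => by positivity
    have hs1 : s ≤ Λ / (8 * N) := by
      have h1 : ∀ k : Fin m, (t k : ℝ) * ((j.choose k : ℕ) : ℝ) ≤ Λ / (8 * N) / m := by
        intro k
        have h2 : ((j.choose k : ℕ) : ℝ) ≤ (N : ℝ) ^ (k : ℕ) := by
          have h3 : j.choose k ≤ N ^ (k : ℕ) :=
            (Nat.choose_le_pow _ _).trans (Nat.pow_le_pow_left hj.le _)
          exact_mod_cast h3
        calc (t k : ℝ) * ((j.choose k : ℕ) : ℝ) ≤
            Λ / (8 * m * (N : ℝ) ^ ((k : ℕ) + 1)) * (N : ℝ) ^ (k : ℕ) :=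
              mul_le_mul (ht k) h2 (by positivity) (by positivity)
          _ = Λ / (8 * N) / m := by
            rw [pow_succ]
            field_simp
      calc s ≤ ∑ _k : Fin m, (Λ / (8 * N) / m : ℝ) := Finset.sum_le_sum fun k _ => h1 k
        _ = Λ / (8 * N) := by
          rw [Finset.sum_const, Finset.card_univ, Fintype.card_fin, nsmul_eq_mul]
          field_simp
    set y : ℝ := 2 * s / Λ with hy
    have hy0 : 0 ≤ y := by positivity
    have hy1 : y ≤ 1 / (4 * N) := by
      rw [hy, div_le_iff₀ hΛ0]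
      calc 2 * s ≤ 2 * (Λ / (8 * N)) := by linarith
        _ = 1 / (4 * N) * Λ := by field_simp; ring
    have hx1 : Real.pi * y ≤ 1 / N := by
      calc Real.pi * y ≤ 4 * (1 / (4 * N)) :=
            mul_le_mul Real.pi_le_four hy1 hy0 (by norm_num)
        _ = 1 / N := by field_simp
    have hx0 : 0 ≤ Real.pi * y := mul_nonneg Real.pi_pos.le hy0
    have h4 := Real.one_sub_sq_div_two_le_cos (x := Real.pi * y)
    have h5 : (Real.pi * y) ^ 2 ≤ 1 / N := by
      have h6 : (1 : ℝ) / N ≤ 1 := by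
        rw [div_le_one hN0]
        exact hN'
      calc (Real.pi * y) ^ 2 = (Real.pi * y) * (Real.pi * y) := by ring
        _ ≤ 1 / N * 1 := mul_le_mul hx1 (hx1.trans h6) hx0 (by positivity)
        _ = 1 / N := by ring
    have h7 : 1 / (2 * (N : ℝ)) = 1 / N / 2 := by field_simp
    rw [h7]
    linarith
  have h0 : 0 ≤ 1 - 1 / (2 * (N : ℝ)) := by
    have : 1 / (2 * (N : ℝ)) ≤ 1 := by
      rw [div_le_one (by positivity)]
      linarith
    linarith
  calc (1 / 2 : ℝ) = 1 + N * (-(1 / (2 * (N : ℝ)))) := by field_simp; ring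
    _ ≤ (1 + -(1 / (2 * (N : ℝ)))) ^ N := one_add_mul_le_pow (by linarith) N
    _ = ∏ _j ∈ range N, (1 - 1 / (2 * (N : ℝ))) := by
      rw [Finset.prod_const, card_range, sub_eq_add_neg]
    _ ≤ _ := Finset.prod_le_prod (fun _ _ => h0) key

end Pool.Agent.Q151.MZ
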